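import Pool.Agent.W792.GK.Stm

/-!
# Project GK: eigenfunctions make the functional large
-/

set_option autoImplicit false

namespace Pool.Agent.W85.GK

open MeasureTheory Pool.Agent.W792.GK

/-- resolvents of selfadjoint operators exist -/
lemma unit_of {E : Type} [NormedAddCommGroup E] [InnerProductSpace ℂ E] [CompleteSpace E]
    {H : E →L[ℂ] E} (hH : IsSelfAdjoint H) {z : ℂ} (hz : z.im ≠ 0) :
    IsUnit (H - z • (1 : E →L[ℂ] E)) := by
  have h1 : z ∉ spectrum ℂ H := fun h => hz (hH.im_eq_zero_of_mem_spectrum h)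
  rw [spectrum.notMem_iff] at h1
  have h2 : H - z • (1 : E →L[ℂ] E) = -(algebraMap ℂ (E →L[ℂ] E) z - H) := by
    rw [Algebra.algebraMap_eq_smul_one]; abel
  rw [h2]
  exact h1.neg

/-- the abstract facts on `g = (H - z)⁻¹ δ` -/
lemma abs_res {E : Type} [NormedAddCommGroup E] [InnerProductSpace ℂ E] [CompleteSpace E]
    {H : E →L[ℂ] E} (hH : IsSelfAdjoint H) {z : ℂ} (hz : 0 < z.im) (δ g : E)
    (hg : g = Ring.inverse (H - z • (1 : E →L[ℂ] E)) δ) :
    H g - z • g = δ ∧ (inner ℂ δ g).im = z.im * ‖g‖ ^ 2 ∧ z.im * ‖g‖ ≤ ‖δ‖ := by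
  have hu := unit_of hH hz.ne'
  have h1 : H g - z • g = δ := by
    have h2 := Ring.mul_inverse_cancel _ hu
    have h3 := congrArg (fun A : E →L[ℂ] E => A δ) h2
    simpa [← hg] using h3
  have hsym : ∀ x y : E, inner ℂ (H x) y = inner ℂ x (H y) := by
    intro x y
    have := ContinuousLinearMap.adjoint_inner_left H y x
    rw [hH.adjoint_eq] at this
    exact this
  have h2 : (inner ℂ δ g).im = z.im * ‖g‖ ^ 2 := by
    rw [← h1, inner_sub_left, inner_smul_left, Complex.sub_im]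
    have h3 : (inner ℂ (H g) g).im = 0 := by
      have h4 : (starRingEnd ℂ) (inner ℂ (H g) g) = inner ℂ (H g) g := by
        rw [inner_conj_symm, hsym]
      exact Complex.conj_eq_iff_im.1 h4
    rw [h3, inner_self_eq_norm_sq_to_K]
    simp [← Complex.ofReal_pow]
  refine ⟨h1, h2, ?_⟩
  rcases eq_or_ne g 0 with h0 | h0
  · rw [h0, norm_zero, mul_zero]; exact norm_nonneg _
  · have h3 : 0 < ‖g‖ := norm_pos_iff.2 h0
    have h4 : z.im * ‖g‖ ^ 2 ≤ ‖δ‖ * ‖g‖ := by
      rw [← h2]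
      exact (Complex.abs_im_le_norm _).trans' (le_abs_self _) |>.trans (norm_inner_le_norm _ _)
    rw [sq, ← mul_assoc] at h4
    exact le_of_mul_le_mul_right h4 h3

/-- choice of the grid point -/
lemma grid {η B E : ℝ} (hη : 0 < η) (hE : |E| ≤ B) : ∃ k : ℤ, k ∈ Finset.Icc (-⌈B / η⌉) ⌈B / η⌉ ∧
    |E - k * η| ≤ η ∧ |k * η| ≤ |E| := by
  rcases le_or_gt 0 E with h | h
  · refine ⟨⌊E / η⌋, ?_, ?_, ?_⟩
    · have h1 : 0 ≤ ⌊E / η⌋ := Int.floor_nonneg.2 (by positivity)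
      have h2 : 0 ≤ ⌈B / η⌉ := by
        apply Int.ceil_nonneg
        have := (abs_nonneg E).trans hE
        positivity
      rw [Finset.mem_Icc]
      refine ⟨by linarith, ?_⟩
      have h3 : (⌊E / η⌋ : ℝ) ≤ E / η := Int.floor_le _
      have h4 : B / η ≤ ⌈B / η⌉ := Int.le_ceil _
      have h5 : E / η ≤ B / η := by
        apply div_le_div_of_nonneg_right _ hη.le
        exact (le_abs_self _).trans hE
      exact_mod_cast h3.trans (h5.trans h4)
    · have h3 : (⌊E / η⌋ : ℝ) ≤ E / η := Int.floor_le _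
      have h4 : E / η < ⌊E / η⌋ + 1 := Int.lt_floor_add_one _
      rw [le_div_iff₀ hη] at h3
      rw [div_lt_iff₀ hη] at h4
      rw [abs_le]
      constructor <;> linarith
    · have h3 : (⌊E / η⌋ : ℝ) ≤ E / η := Int.floor_le _
      rw [le_div_iff₀ hη] at h3
      have h1 : (0 : ℝ) ≤ ⌊E / η⌋ := by
        exact_mod_cast Int.floor_nonneg.2 (by positivity)
      rw [abs_of_nonneg h, abs_of_nonneg (by positivity)]
      exact h3
  · refine ⟨⌈E / η⌉, ?_, ?_, ?_⟩
    · have h1 : ⌈E / η⌉ ≤ 0 := by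
        rw [Int.ceil_le]
        push_cast
        exact div_nonpos_of_nonpos_of_nonneg h.le hη.le
      have h2 : 0 ≤ ⌈B / η⌉ := by
        apply Int.ceil_nonneg
        have := (abs_nonneg E).trans hE
        positivity
      rw [Finset.mem_Icc]
      refine ⟨?_, by linarith⟩
      have h3 : E / η ≤ ⌈E / η⌉ := Int.le_ceil _
      have h4 : B / η ≤ ⌈B / η⌉ := Int.le_ceil _
      have h5 : -(B / η) ≤ E / η := by
        rw [← neg_div]
        apply div_le_div_of_nonneg_right _ hη.le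
        have := (neg_abs_le E)
        linarith
      have : (-⌈B / η⌉ : ℝ) ≤ ⌈E / η⌉ := by linarith
      exact_mod_cast this
    · have h3 : E / η ≤ ⌈E / η⌉ := Int.le_ceil _
      have h4 : (⌈E / η⌉ : ℝ) < E / η + 1 := Int.ceil_lt_add_one _
      rw [div_le_iff₀ hη] at h3
      have h5 : (⌈E / η⌉ : ℝ) * η < (E / η + 1) * η := mul_lt_mul_of_pos_right h4 hη
      have h6 : (E / η + 1) * η = E + η := by field_simp
      rw [h6] at h5
      rw [abs_le]
      constructor <;> linarith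
    · have h3 : E / η ≤ ⌈E / η⌉ := Int.le_ceil _
      rw [div_le_iff₀ hη] at h3
      have h1 : (⌈E / η⌉ : ℝ) ≤ 0 := by
        have : ⌈E / η⌉ ≤ 0 := by
          rw [Int.ceil_le]
          push_cast
          exact div_nonpos_of_nonpos_of_nonneg h.le hη.le
        exact_mod_cast this
      rw [abs_of_neg h, abs_of_nonpos (mul_nonpos_of_nonpos_of_nonneg h1 hη.le)]
      linarith

/-- the cut off -/
lemma clamp_abs {R t : ℝ} (hR : 0 < R) : |clamp R t - t| * R ≤ |t| * |clamp R t| := by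
  unfold clamp
  rcases le_or_gt t (-R) with h | h
  · rw [min_eq_right (by linarith), max_eq_left h, abs_of_nonneg (by linarith : 0 ≤ -R - t),
      abs_of_nonpos (by linarith : t ≤ 0), abs_of_neg (by linarith : -R < 0)]
    nlinarith
  · rcases le_or_gt R t with h2 | h2
    · rw [min_eq_left h2, max_eq_right (by linarith), abs_of_nonpos (by linarith : R - t ≤ 0),
        abs_of_pos (by linarith : 0 < t), abs_of_pos hR]
      nlinarith
    · rw [min_eq_right h2.le, max_eq_right h.le, sub_self, abs_zero, zero_mul]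
      positivity

theorem main : S_T1 → S_T2 → S_EIG := by
  intro hT1 hT2 ι _ _ K η B R hη hη1 hB hR v E u hE hu heq
  have hT : IsHop K (hopOp K) := by
    unfold hopOp
    rw [dif_pos (hT1 ι K)]
    exact Classical.choose_spec (hT1 ι K)
  have hM : IsMul R v (mulOp R v) := by
    unfold mulOp
    rw [dif_pos (hT2 (ι → ℤ) R hR v)]
    exact Classical.choose_spec (hT2 (ι → ℤ) R hR v)
  obtain ⟨T, hTT⟩ : ∃ T, T = hopOp K := ⟨_, rfl⟩
  obtain ⟨M, hMM⟩ : ∃ M, M = mulOp R v := ⟨_, rfl⟩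
  rw [← hTT] at hT
  rw [← hMM] at hM
  obtain ⟨k, hk1, hk2, hk3⟩ := grid hη hE
  obtain ⟨z, hz⟩ : ∃ z, z = zk η k := ⟨_, rfl⟩
  have hzre : z.re = k * η := by rw [hz]; rfl
  have hzim : z.im = η := by rw [hz]; rfl
  have hHs : IsSelfAdjoint (T + M) := hT.1.add hM.1
  obtain ⟨δ, hδ⟩ : ∃ δ : l2 (ι → ℤ), δ = lp.single 2 (0 : ι → ℤ) (1 : ℂ) := ⟨_, rfl⟩
  obtain ⟨g, hg⟩ : ∃ g, g = Ring.inverse (T + M - z • (1 : l2 (ι → ℤ) →L[ℂ] l2 (ι → ℤ))) δ := ⟨_, rfl⟩
  obtain ⟨r1, r2, r3⟩ := abs_res hHs (by rw [hzim]; exact hη) δ g hg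
  rw [hzim] at r2 r3
  have hδn : ‖δ‖ = 1 := by
    rw [hδ, lp.norm_single (by norm_num)]; simp
  rw [hδn] at r3
  have hJ : Jm K R v z = η * ‖g‖ ^ 2 := by
    rw [← r2]
    unfold Jm
    rw [← hTT, ← hMM, ← hδ, ← hg, hδ, lp.inner_single_left]
    simp
  -- the eigenfunction
  have hmem : Memℓp u 2 := by
    apply memℓp_gen
    have := hu.summable
    simpa using this
  obtain ⟨U, hU⟩ : ∃ U : l2 (ι → ℤ), U = ⟨u, hmem⟩ := ⟨_, rfl⟩
  have hUx : ∀ x, U x = u x := fun x => by rw [hU]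
  have hUn : ‖U‖ = 1 := by
    have h1 := lp.norm_rpow_eq_tsum (p := 2) (by norm_num) U
    have h2 : ∑' i, ‖U i‖ ^ (2 : ENNReal).toReal = 1 := by
      rw [← hu.tsum_eq]
      refine tsum_congr fun x => ?_
      rw [hUx]
      simp
    rw [h2] at h1
    have h3 : ‖U‖ ^ 2 = 1 := by
      have : ‖U‖ ^ (2 : ENNReal).toReal = ‖U‖ ^ 2 := by simp
      rw [← this]; exact h1
    exact (pow_eq_one_iff_of_nonneg (norm_nonneg _) (by norm_num)).1 h3
  obtain ⟨W, hW⟩ : ∃ W : l2 (ι → ℤ), W = (E : ℂ) • U - T U := ⟨_, rfl⟩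
  have hWx : ∀ x, W x = (v x : ℂ) * u x := by
    intro x
    have h1 : W x = (E : ℂ) * U x - T U x := by rw [hW]; rfl
    rw [h1, hT.2.2, hUx, ← heq x]
    have h2 : ∑' y, hop K (x - y) * U y = ∑' y, hop K (x - y) * u y :=
      tsum_congr fun y => by rw [hUx]
    rw [h2]
    ring
  have hTn : ‖T‖ ≤ ‖K‖ := hT.2.1
  have hWn : ‖W‖ ≤ B + ‖K‖ := by
    rw [hW]
    refine (norm_sub_le _ _).trans ?_
    rw [norm_smul, hUn, mul_one, Complex.norm_real, Real.norm_eq_abs]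
    have := T.le_opNorm U
    rw [hUn, mul_one] at this
    linarith
  obtain ⟨e, he⟩ : ∃ e : l2 (ι → ℤ), e = (T + M) U - (E : ℂ) • U := ⟨_, rfl⟩
  have hex : ∀ x, e x = ((clamp R (v x) - v x : ℝ) : ℂ) * u x := by
    intro x
    have h1 : e x = T U x + M U x - (E : ℂ) * U x := by rw [he]; rfl
    have h2 : W x = (E : ℂ) * U x - T U x := by rw [hW]; rfl
    have h3 := hWx x
    rw [h1, hM.2.2, hUx]
    rw [h2, hUx] at h3
    push_cast
    linear_combination -h3
  have hMg : ‖M g‖ ≤ 1 + (‖K‖ + B + 2) / η := by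
    have h1 : M g = δ + z • g - T g := by
      rw [← r1, add_apply]; abel
    rw [h1]
    have hgn : ‖g‖ ≤ 1 / η := by
      rw [le_div_iff₀ hη]; linarith
    have hzn : ‖z‖ ≤ B + 2 := by
      refine (Complex.norm_le_abs_re_add_abs_im z).trans ?_
      rw [hzre, hzim, abs_of_pos hη]
      linarith
    calc ‖δ + z • g - T g‖ ≤ ‖δ‖ + ‖z‖ * ‖g‖ + ‖T‖ * ‖g‖ := by
          refine (norm_sub_le _ _).trans ?_
          refine add_le_add ((norm_add_le _ _).trans ?_) (T.le_opNorm g)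
          rw [norm_smul]
      _ ≤ 1 + (B + 2) * (1 / η) + ‖K‖ * (1 / η) := by
          rw [hδn]
          have a1 : ‖z‖ * ‖g‖ ≤ (B + 2) * (1 / η) := mul_le_mul hzn hgn (norm_nonneg _) (by linarith)
          have a2 : ‖T‖ * ‖g‖ ≤ ‖K‖ * (1 / η) := mul_le_mul hTn hgn (norm_nonneg _) (norm_nonneg _)
          linarith
      _ = _ := by ring
  have heg : ‖inner ℂ e g‖ ≤ (B + ‖K‖) * (1 + (‖K‖ + B + 2) / η) / R := by
    have hpq : (2 : ENNReal).toReal.HolderConjugate (2 : ENNReal).toReal := by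
      have : (2 : ENNReal).toReal = 2 := by simp
      rw [this]
      exact Real.HolderConjugate.two_two
    obtain ⟨s1, s2⟩ := lp.tsum_mul_le_mul_norm hpq W (M g)
    have hpt : ∀ x, ‖inner ℂ (e x) (g x)‖ ≤ ‖W x‖ * ‖M g x‖ * (1 / R) := by
      intro x
      rw [hWx, hM.2.2, hex, mul_one_div, le_div_iff₀ hR]
      refine (mul_le_mul_of_nonneg_right (norm_inner_le_norm _ _) hR.le).trans ?_
      rw [norm_mul, norm_mul, norm_mul, Complex.norm_real, Complex.norm_real, Complex.norm_real,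
        Real.norm_eq_abs, Real.norm_eq_abs, Real.norm_eq_abs]
      have := clamp_abs (R := R) (t := v x) hR
      calc |clamp R (v x) - v x| * ‖u x‖ * ‖g x‖ * R
          = (|clamp R (v x) - v x| * R) * (‖u x‖ * ‖g x‖) := by ring
        _ ≤ (|v x| * |clamp R (v x)|) * (‖u x‖ * ‖g x‖) :=
            mul_le_mul_of_nonneg_right this (by positivity)
        _ = _ := by ring
    rw [lp.inner_eq_tsum]
    have s3 : Summable fun x => ‖W x‖ * ‖M g x‖ * (1 / R) := s1.mul_right _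
    calc ‖∑' x, inner ℂ (e x) (g x)‖ ≤ ∑' x, ‖W x‖ * ‖M g x‖ * (1 / R) :=
          tsum_of_norm_bounded s3.hasSum hpt
      _ = (∑' x, ‖W x‖ * ‖M g x‖) * (1 / R) := tsum_mul_right
      _ ≤ (‖W‖ * ‖M g‖) * (1 / R) := mul_le_mul_of_nonneg_right s2 (by positivity)
      _ ≤ ((B + ‖K‖) * (1 + (‖K‖ + B + 2) / η)) * (1 / R) := by
          apply mul_le_mul_of_nonneg_right _ (by positivity)
          exact mul_le_mul hWn hMg (norm_nonneg _) (by positivity)
      _ = _ := by ring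
  obtain ⟨c, hc⟩ : ∃ c, c = (B + ‖K‖) * (1 + (‖K‖ + B + 2) / η) / R := ⟨_, rfl⟩
  rw [← hc] at heg ⊢
  have hsym : ∀ x y : l2 (ι → ℤ), inner ℂ ((T + M) x) y = inner ℂ x ((T + M) y) := by
    intro x y
    have := ContinuousLinearMap.adjoint_inner_left (T + M) y x
    rw [hHs.adjoint_eq] at this
    exact this
  have hid : inner ℂ U δ = ((E : ℂ) - z) * inner ℂ U g + inner ℂ e g := by
    rw [← r1, inner_sub_right, inner_smul_right, ← hsym]
    have : (T + M) U = e + (E : ℂ) • U := by rw [he]; abel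
    rw [this, inner_add_left, inner_smul_left, Complex.conj_ofReal]
    ring
  have hu0 : ‖inner ℂ U δ‖ = ‖u 0‖ := by
    rw [hδ, lp.inner_single_right, hUx]
    simp
  have hEz : ‖(E : ℂ) - z‖ ^ 2 ≤ 2 * η ^ 2 := by
    rw [Complex.sq_norm, Complex.normSq_apply]
    simp only [Complex.sub_re, Complex.sub_im, Complex.ofReal_re, Complex.ofReal_im, hzre, hzim]
    have := sq_le_sq' (abs_le.1 hk2).1 (abs_le.1 hk2).2
    nlinarith
  have hmain : ‖u 0‖ - c ≤ ‖(E : ℂ) - z‖ * ‖g‖ := by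
    rw [← hu0, hid]
    have h1 := norm_add_le (((E : ℂ) - z) * inner ℂ U g) (inner ℂ e g)
    have h2 : ‖((E : ℂ) - z) * inner ℂ U g‖ ≤ ‖(E : ℂ) - z‖ * ‖g‖ := by
      rw [norm_mul]
      apply mul_le_mul_of_nonneg_left _ (norm_nonneg _)
      have := norm_inner_le_norm (𝕜 := ℂ) U g
      rwa [hUn, one_mul] at this
    linarith
  have hJ0 : 0 ≤ Jm K R v z := by rw [hJ]; positivity
  have hsq : (max 0 (‖u 0‖ - c)) ^ 2 ≤ 2 * η * Jm K R v z := by
    have h1 : max 0 (‖u 0‖ - c) ≤ ‖(E : ℂ) - z‖ * ‖g‖ := max_le (by positivity) hmain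
    have h2 := pow_le_pow_left₀ (le_max_left _ _) h1 2
    refine h2.trans ?_
    rw [mul_pow, hJ]
    calc ‖(E : ℂ) - z‖ ^ 2 * ‖g‖ ^ 2 ≤ 2 * η ^ 2 * ‖g‖ ^ 2 :=
          mul_le_mul_of_nonneg_right hEz (by positivity)
      _ = _ := by ring
  have h4 : (max 0 (‖u 0‖ - c)) ^ 4 ≤ (2 * η * Jm K R v z) ^ 2 := by
    have := pow_le_pow_left₀ (by positivity) hsq 2
    rwa [← pow_mul] at this
  refine h4.trans ?_
  unfold Qz
  have h5 : (Jm K R v z) ^ 2 ≤ ∑ k ∈ Finset.Icc (-⌈B / η⌉) ⌈B / η⌉, (Jm K R v (zk η k)) ^ 2 := by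
    rw [hz]
    exact Finset.single_le_sum (f := fun k => (Jm K R v (zk η k)) ^ 2) (fun i _ => sq_nonneg _) hk1
  calc (2 * η * Jm K R v z) ^ 2 = 4 * (η ^ 2 * (Jm K R v z) ^ 2) := by ring
    _ ≤ _ := by
      apply mul_le_mul_of_nonneg_left _ (by norm_num)
      exact mul_le_mul_of_nonneg_left h5 (by positivity)

end Pool.Agent.W85.GK
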